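import Mathlib
import Pool.Agent.Helper3_PQE.Stmts
import Pool.Agent.Helper1_PGH.Adj
import Pool.Agent.Helper1_PGH.Family

/-!
# QUO: quotients of products of curves satisfy the condition on germs, with exceptional values
-/

set_option autoImplicit false

universe u

open PGH PGL IntermediateField

namespace Pool.Agent.PQE.H21

open BranchedTowers

section Exc

variable {k : Type u} [Field k] {n : ℕ}

/-- the exceptional hypersurface -/
noncomputable def HS (S : Fin n → Finset k) : MvPolynomial (Fin n) k :=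
  ∏ l, ∏ c ∈ S l, (MvPolynomial.X l - MvPolynomial.C c)

theorem X_sub_C_ne (l : Fin n) (c : k) :
    (MvPolynomial.X l - MvPolynomial.C c : MvPolynomial (Fin n) k) ≠ 0 := by
  intro h
  have h1 := congrArg (MvPolynomial.eval (fun _ => c + 1)) h
  simp at h1

theorem degLe_HS (S : Fin n → Finset k) {e : ℕ} (hS : ∀ l, (S l).card ≤ e) :
    DegLe e (HS S) := by
  classical
  refine ⟨?_, fun l => ?_⟩
  · unfold HS
    rw [Finset.prod_ne_zero_iff]
    intro l _
    rw [Finset.prod_ne_zero_iff]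
    intro c _
    exact X_sub_C_ne l c
  · have h1 : ∀ (l' : Fin n) (c : k),
        MvPolynomial.degreeOf l (MvPolynomial.X l' - MvPolynomial.C c : MvPolynomial (Fin n) k) ≤
          if l = l' then 1 else 0 := by
      intro l' c
      refine (MvPolynomial.degreeOf_sub_le _ _ _).trans ?_
      rw [MvPolynomial.degreeOf_C, MvPolynomial.degreeOf_X]
      simp
    calc MvPolynomial.degreeOf l (HS S)
        ≤ ∑ l', MvPolynomial.degreeOf l (∏ c ∈ S l', (MvPolynomial.X l' - MvPolynomial.C c)) :=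
          MvPolynomial.degreeOf_prod_le _ _ _
      _ ≤ ∑ l', ∑ _c ∈ S l', (if l = l' then 1 else 0) := by
          apply Finset.sum_le_sum
          intro l' _
          refine (MvPolynomial.degreeOf_prod_le _ _ _).trans ?_
          exact Finset.sum_le_sum fun c _ => h1 l' c
      _ = (S l).card := by
          rw [Finset.sum_eq_single l]
          · simp
          · intro l' _ hl'
            apply Finset.sum_eq_zero
            intro c _
            rw [if_neg (Ne.symm hl')]
          · intro h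
            exact absurd (Finset.mem_univ l) h
      _ ≤ e := hS l

theorem not_ge_of_HS {E : Type u} [Field E] [Algebra k E] (P : Place k E) (S : Fin n → Finset k)
    (f : Fin n → E) (h0 : ∀ l, P.Ge 0 (f l)) (h : ¬ P.Ge 1 (MvPolynomial.aeval f (HS S))) :
    ∀ l, ∀ c ∈ S l, ¬ P.Ge 1 (f l - algebraMap k E c) := by
  classical
  intro l c hc hge
  apply h
  have hconst : ∀ c : k, P.v (algebraMap k E c) ≤ 1 := by
    intro c
    by_cases hc : c = 0
    · rw [hc, map_zero, map_zero]
      exact zero_le'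
    · exact (P.v_const' c hc).le
  have hle : ∀ l (c : k), P.v (f l - algebraMap k E c) ≤ 1 := by
    intro l c
    refine (P.v.map_sub _ _).trans (max_le ?_ (hconst c))
    have := h0 l
    unfold Place.Ge at this
    rw [neg_zero, WithZero.exp_zero] at this
    exact this
  unfold HS Place.Ge
  rw [map_prod, map_prod, ← Finset.mul_prod_erase Finset.univ _ (Finset.mem_univ l)]
  have hrest : ∏ l' ∈ Finset.univ.erase l, P.v (MvPolynomial.aeval f
      (∏ c ∈ S l', (MvPolynomial.X l' - MvPolynomial.C c))) ≤ 1 := by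
    apply Finset.prod_induction _ (fun z => z ≤ 1) (fun a b ha hb => mul_le_one' ha hb) le_rfl
    intro l' _
    rw [map_prod, map_prod]
    apply Finset.prod_induction _ (fun z => z ≤ 1) (fun a b ha hb => mul_le_one' ha hb) le_rfl
    intro c' _
    rw [map_sub, MvPolynomial.aeval_X, MvPolynomial.aeval_C]
    exact hle l' c'
  have hfirst : P.v (MvPolynomial.aeval f
      (∏ c ∈ S l, (MvPolynomial.X l - MvPolynomial.C c))) ≤ WithZero.exp (-1 : ℤ) := by
    rw [map_prod, map_prod, ← Finset.mul_prod_erase (S l) _ hc]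
    have h1 : ∏ c' ∈ (S l).erase c, P.v (MvPolynomial.aeval f
        (MvPolynomial.X l - MvPolynomial.C c')) ≤ 1 := by
      apply Finset.prod_induction _ (fun z => z ≤ 1) (fun a b ha hb => mul_le_one' ha hb) le_rfl
      intro c' _
      rw [map_sub, MvPolynomial.aeval_X, MvPolynomial.aeval_C]
      exact hle l c'
    have h2 : P.v (MvPolynomial.aeval f (MvPolynomial.X l - MvPolynomial.C c)) ≤
        WithZero.exp (-1 : ℤ) := by
      rw [map_sub, MvPolynomial.aeval_X, MvPolynomial.aeval_C]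
      exact hge
    exact (mul_le_mul' h2 h1).trans (mul_one _).le
  exact (mul_le_mul' hfirst hrest).trans (mul_one _).le

end Exc

theorem quo (hqpl : QplStmt.{u}) (e₀ : ℕ) : QuoStmt.{u} e₀ := by
  classical
  intro k M _ _ _ _ _ n x A hx hQ
  obtain ⟨M₀, G, iF, iA, iG, iFin, iAct, iComm, B, y, Sx, j, hFF, hst, hfa, hy, hSc, hA, hA1,
    hjk, hjx⟩ := hQ
  have hchM : CharZero M₀ := charZero_of_injective_algebraMap (algebraMap k M₀).injective
  -- the elements of the field of invariants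
  have hfix : ∀ z : M₀, z ∈ FixedPoints.subfield G M₀ ↔ ∀ g : G, g • z = z := fun z => Iff.rfl
  have hkfix : ∀ c : k, algebraMap k M₀ c ∈ FixedPoints.subfield G M₀ :=
    fun c g => smul_algebraMap' g c
  have hyfix : ∀ l, (y l : M₀) ∈ FixedPoints.subfield G M₀ := fun l => hy l
  -- transcendence
  have hyt : ∀ l, Transcendental k (y l) := by
    intro l halg
    have hxl : Transcendental k (x l) := hx.transcendental l
    apply hxl
    obtain ⟨p, hp0, hp⟩ := halg
    refine ⟨p, hp0, ?_⟩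
    have h1 : Polynomial.aeval (y l : M₀) p = 0 := by
      have := congrArg (algebraMap (B l) M₀) hp
      rwa [← Polynomial.aeval_algebraMap_apply, map_zero] at this
    rw [← hjx l (hyfix l)]
    let ι : k →+* FixedPoints.subfield G M₀ :=
      { toFun := fun c => ⟨algebraMap k M₀ c, hkfix c⟩
        map_one' := Subtype.ext (map_one _)
        map_mul' := fun a b => Subtype.ext (map_mul _ a b)
        map_zero' := Subtype.ext (map_zero _)
        map_add' := fun a b => Subtype.ext (map_add _ a b) }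
    have h2 : Polynomial.eval₂ ι ⟨(y l : M₀), hyfix l⟩ p = 0 := by
      apply Subtype.ext
      have h3 : ((Polynomial.eval₂ ι ⟨(y l : M₀), hyfix l⟩ p : FixedPoints.subfield G M₀) : M₀) =
          Polynomial.eval₂ ((FixedPoints.subfield G M₀).subtype.comp ι) (y l : M₀) p :=
        Polynomial.hom_eval₂ p ι (FixedPoints.subfield G M₀).subtype _
      rw [h3]
      exact h1
    have h4 := congrArg j h2
    rw [map_zero, Polynomial.hom_eval₂] at h4
    rw [Polynomial.aeval_def]
    have h5 : j.comp ι = algebraMap k M := by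
      ext c
      exact hjk c (hkfix c)
    rw [h5] at h4
    exact h4
  -- generators of the `B i`
  have hFG : ∀ i, ∃ s : Finset M₀, IntermediateField.adjoin k (s : Set M₀) = B i := by
    intro i
    have h1 : Algebra.EssFiniteType k (B i) := (hFF i).ess
    exact IntermediateField.essFiniteType_iff.1 h1
  choose s hs using hFG
  have hw : ∀ (γ : G) (i : Fin n), ∃ w : M₀, (∃ a : B i, actF (B i) (hst i) γ a ≠ a) →
      w ∈ B i ∧ w - γ • w ≠ 0 := by
    intro γ i
    by_cases hi : ∃ a : B i, actF (B i) (hst i) γ a ≠ a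
    · obtain ⟨a, ha⟩ := hi
      refine ⟨a, fun _ => ⟨a.2, ?_⟩⟩
      intro h0
      apply ha
      apply Subtype.ext
      rw [coe_actF]
      exact (sub_eq_zero.1 h0).symm
    · exact ⟨0, fun h => absurd h hi⟩
  choose w hw using hw
  let G₁ : Set M₀ := Set.range (fun i => (y i : M₀)) ∪ (⋃ i, (s i : Set M₀)) ∪
    Set.range (fun q : G × Fin n => w q.1 q.2) ∪
    Set.range (fun q : G × Fin n => (w q.1 q.2 - q.1 • w q.1 q.2)⁻¹)
  have hG₁ : G₁.Finite := by
    refine Set.Finite.union (Set.Finite.union (Set.Finite.union ?_ ?_) ?_) ?_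
    · exact Set.finite_range _
    · exact Set.finite_iUnion (fun i => (s i).finite_toSet)
    · exact Set.finite_range _
    · exact Set.finite_range _
  let G₀ : Set M₀ := ⋃ γ : G, (fun z => γ • z) '' G₁
  have hG₀ : G₀.Finite := Set.finite_iUnion (fun γ => hG₁.image _)
  have hst₀ : ∀ γ : G, ∀ g ∈ G₀, γ • g ∈ G₀ := by
    intro γ g hg
    rw [Set.mem_iUnion] at hg ⊢
    obtain ⟨τ, z, hz, rfl⟩ := hg
    exact ⟨γ * τ, z, hz, mul_smul γ τ z⟩
  have hsub : G₁ ⊆ G₀ := by
    intro z hz
    rw [Set.mem_iUnion]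
    exact ⟨1, z, hz, one_smul G z⟩
  obtain ⟨TM, hTM, hTM1, hTM2⟩ := invariants_fg k G₀ hG₀ hst₀
  -- the set `T`
  let e : M₀ → M := fun z => if h : z ∈ FixedPoints.subfield G M₀ then j ⟨z, h⟩ else 0
  have he : ∀ (z : M₀) (h : z ∈ FixedPoints.subfield G M₀), e z = j ⟨z, h⟩ := by
    intro z h
    change (if h : z ∈ FixedPoints.subfield G M₀ then j ⟨z, h⟩ else 0) = _
    rw [dif_pos h]
  refine ⟨e '' TM, HS Sx, hTM.image _, degLe_HS Sx hSc, ?_⟩
  intro F E _ _ _ S' hTS hxS φ P _ hge hHge l a ha hord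
  -- the rings `R` and `S`
  let S : Subalgebra k M₀ := Algebra.adjoin k G₀
  let _ : MulSemiringAction G S := adjAct k G₀ hst₀
  have hsmul : ∀ (γ : G) (s : S), ((γ • s : S) : M₀) = γ • (s : M₀) := fun _ _ => rfl
  let R : Subalgebra k S :=
    { carrier := {s | ∀ γ : G, γ • s = s}
      mul_mem' := fun {a b} ha hb γ => by rw [smul_mul', ha γ, hb γ]
      add_mem' := fun {a b} ha hb γ => by rw [smul_add, ha γ, hb γ]
      algebraMap_mem' := fun c γ => by
        apply Subtype.ext
        exact smul_algebraMap_eq k γ c }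
  have hinv : Algebra.IsInvariant R S G := ⟨fun s hs => ⟨⟨s, hs⟩, rfl⟩⟩
  have hcomm : SMulCommClass G R S := ⟨fun γ r s => by
    change γ • ((r : S) * s) = (r : S) * (γ • s)
    rw [smul_mul', r.2 γ]⟩
  have hftk : Algebra.FiniteType k S := by
    rw [← Subalgebra.fg_iff_finiteType]
    have h1 := Subalgebra.fg_adjoin_finset (R := k) hG₀.toFinset
    rwa [hG₀.coe_toFinset] at h1
  have hft : Algebra.FiniteType R S := Algebra.FiniteType.of_restrictScalars_finiteType k R S
  have hinj : Function.Injective (algebraMap R S) := Subtype.val_injective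
  have hj : Function.Injective (algebraMap S M₀) := Subtype.val_injective
  have hfrac : ∀ i, ∀ f ∈ B i, ∃ a b : S, a ∈ SF S (B i) ∧ b ∈ SF S (B i) ∧
      f = algebraMap S M₀ a / algebraMap S M₀ b := by
    intro i z hz
    rw [← hs i, IntermediateField.mem_adjoin_iff_div] at hz
    obtain ⟨a, ha, b, hb, hab⟩ := hz
    have h1 : Algebra.adjoin k (s i : Set M₀) ≤ Algebra.adjoin k G₀ := by
      apply Algebra.adjoin_mono
      refine subset_trans ?_ hsub
      intro y hy
      exact Or.inl (Or.inl (Or.inr (Set.mem_iUnion.2 ⟨i, hy⟩)))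
    have h2 : ∀ y ∈ Algebra.adjoin k (s i : Set M₀), y ∈ B i := by
      intro y hy
      rw [← hs i]
      exact IntermediateField.algebra_adjoin_le_adjoin _ _ hy
    exact ⟨⟨a, h1 ha⟩, ⟨b, h1 hb⟩, h2 a ha, h2 b hb, hab⟩
  have hfaith : ∀ γ : G, γ ≠ 1 → ∃ i, ∃ a : B i, actF (B i) (hst i) γ a ≠ a := by
    intro γ hγ
    by_contra hcon
    push Not at hcon
    apply hγ
    apply hfa l γ
    intro m _ z hz
    exact congrArg Subtype.val (hcon m ⟨z, hz⟩)
  have hunit : ∀ γ : G, ∀ i, (∃ a : B i, actF (B i) (hst i) γ a ≠ a) →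
      ∃ s ∈ SF S (B i), IsUnit (s - γ • s) := by
    intro γ i hi
    obtain ⟨h1, h2⟩ := hw γ i hi
    refine ⟨⟨w γ i, Algebra.subset_adjoin (hsub (Or.inl (Or.inr ⟨(γ, i), rfl⟩)))⟩, h1, ?_⟩
    refine IsUnit.of_mul_eq_one
      ⟨(w γ i - γ • w γ i)⁻¹, Algebra.subset_adjoin (hsub (Or.inr ⟨(γ, i), rfl⟩))⟩ ?_
    apply Subtype.ext
    change (w γ i - γ • w γ i) * (w γ i - γ • w γ i)⁻¹ = 1
    exact mul_inv_cancel₀ h2
  -- the homomorphism from `R` to `E`
  have hmem : ∀ z ∈ Algebra.adjoin k TM, ∃ h : z ∈ FixedPoints.subfield G M₀, j ⟨z, h⟩ ∈ S' := by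
    intro z hz
    induction hz using Algebra.adjoin_induction with
    | mem t ht =>
      refine ⟨hTM1 t ht, ?_⟩
      rw [← he t (hTM1 t ht)]
      exact hTS ⟨t, ht, rfl⟩
    | algebraMap c =>
      refine ⟨hkfix c, ?_⟩
      rw [hjk]
      exact S'.algebraMap_mem c
    | add a b _ _ ha hb =>
      obtain ⟨ha1, ha2⟩ := ha
      obtain ⟨hb1, hb2⟩ := hb
      refine ⟨add_mem ha1 hb1, ?_⟩
      have : (⟨a + b, add_mem ha1 hb1⟩ : FixedPoints.subfield G M₀) = ⟨a, ha1⟩ + ⟨b, hb1⟩ := rfl
      rw [this, map_add]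
      exact add_mem ha2 hb2
    | mul a b _ _ ha hb =>
      obtain ⟨ha1, ha2⟩ := ha
      obtain ⟨hb1, hb2⟩ := hb
      refine ⟨mul_mem ha1 hb1, ?_⟩
      have : (⟨a * b, mul_mem ha1 hb1⟩ : FixedPoints.subfield G M₀) = ⟨a, ha1⟩ * ⟨b, hb1⟩ := rfl
      rw [this, map_mul]
      exact mul_mem ha2 hb2
  have hRfix : ∀ r : R, ((r : S) : M₀) ∈ FixedPoints.subfield G M₀ :=
    fun r γ => congrArg Subtype.val (r.2 γ)
  have hRS : ∀ r : R, j ⟨((r : S) : M₀), hRfix r⟩ ∈ S' := by
    intro r
    obtain ⟨_, h2⟩ := hmem _ (hTM2 ((r : S) : M₀) (r : S).2 (hRfix r))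
    exact h2
  let θ : R →ₐ[k] S' :=
    { toFun := fun r => ⟨j ⟨((r : S) : M₀), hRfix r⟩, hRS r⟩
      map_one' := Subtype.ext (map_one j)
      map_mul' := fun a b => Subtype.ext (map_mul j ⟨((a : S) : M₀), hRfix a⟩ ⟨((b : S) : M₀), hRfix b⟩)
      map_zero' := Subtype.ext (map_zero j)
      map_add' := fun a b => Subtype.ext (map_add j ⟨((a : S) : M₀), hRfix a⟩ ⟨((b : S) : M₀), hRfix b⟩)
      commutes' := fun c => Subtype.ext (hjk c (hkfix c)) }
  let φ' : R →ₐ[k] E := φ.comp θ
  have hchE : CharZero E := charZero_of_injective_algebraMap (algebraMap k E).injective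
  let r : Fin n → R := fun i =>
    ⟨⟨(y i : M₀), Algebra.subset_adjoin (hsub (Or.inl (Or.inl (Or.inl ⟨i, rfl⟩))))⟩,
      fun γ => Subtype.ext (hy i γ)⟩
  have hφr : ∀ i, φ' (r i) = ev φ (x i) := by
    intro i
    rw [ev_mem φ (hxS i)]
    change φ (θ (r i)) = _
    congr 1
    apply Subtype.ext
    exact hjx i (hyfix i)
  obtain ⟨E', h1, h2, -, ⟨Q⟩⟩ := exists_liftPack (S := S) B hst hinj hj (fun _ _ => rfl) hfrac
    hfaith hunit φ'
  have hfin := hqpl B hst φ' Q y r A Sx hfa hy hyt hA hA1 (fun _ => rfl) P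
    (fun i => by rw [hφr]; exact hge i)
    (fun i c hc => by
      rw [hφr]
      exact not_ge_of_HS P Sx (fun l => ev φ (x l)) hge hHge i c hc)
    l a ha (by rw [hφr]; exact hord)
  obtain ⟨m, hm, b, hb, hP⟩ := hfin
  refine ⟨m, hm, b, hb, ?_⟩
  rw [← hφr]
  exact hP

end Pool.Agent.PQE.H21
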